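import Pool.Agent.helper36.UT.Spec

set_option autoImplicit false

open Filter Polynomial FirstOrder FirstOrder.Language

namespace Pool.Agent.UnivT

theorem LSU_tow (i : ℕ) : Lin (fun H => (tow (H - i) : ℤ)) := by
  refine ⟨0, i + 1, fun j => if j = i then 1 else 0, Eventually.of_forall fun H => ?_⟩
  rw [zero_add, Finset.sum_eq_single i]
  · simp
  · intro j _ hj
    simp [hj]
  · intro h
    exact absurd (Finset.mem_range.2 (Nat.lt_succ_self i)) h

theorem LSU_zero : Lin (fun _ => 0) :=
  ⟨0, 0, fun _ => 0, Eventually.of_forall fun H => by simp⟩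

theorem LSU_evmap (n : ℕ) (b : ℕ → ℚ) (e : ℕ → ℕ → ℤ) (H : ℕ) :
    ev ((List.range n).map fun i => (b i, e i)) H = ∑ i ∈ Finset.range n, b i * (2 : ℚ) ^ (e i H) := by
  induction n with
  | zero => simp [ev]
  | succ n ih =>
    rw [List.range_succ, List.map_append, ev_append, ih, Finset.sum_range_succ]
    simp [ev]

theorem LSU_base (f : ℕ → ℤ) (hf : Lev 0 f) : Lev 1 f := by
  obtain ⟨a, n, b, h⟩ := hf
  refine ⟨(a, fun _ => 0) :: (List.range n).map (fun i => (b i, fun H => (tow (H - (i + 1)) : ℤ))), ?_, ?_⟩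
  · intro x hx
    rw [List.mem_cons] at hx
    rcases hx with rfl | hx
    · exact LSU_zero
    · rw [List.mem_map] at hx
      obtain ⟨i, _, rfl⟩ := hx
      exact LSU_tow (i + 1)
  · filter_upwards [h, eventually_ge_atTop n] with H hH hn
    rw [hH, ev_cons, LSU_evmap n b (fun i H => (tow (H - (i + 1)) : ℤ)) H]
    simp only [zpow_zero, mul_one]
    congr 1
    apply Finset.sum_congr rfl
    intro i hi
    rw [Finset.mem_range] at hi
    have h1 : H - i = (H - (i + 1)) + 1 := by omega
    rw [h1]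
    have h2 : tow ((H - (i + 1)) + 1) = 2 ^ tow (H - (i + 1)) := rfl
    rw [h2, zpow_natCast]
    push_cast
    rfl

theorem LSU (_hLGD : LGD_stmt) : LSU_stmt := by
  intro k
  induction k with
  | zero => exact LSU_base
  | succ k ih =>
    rintro f ⟨l, hl, hf⟩
    exact ⟨l, fun x hx => ih x.2 (hl x hx), hf⟩

end Pool.Agent.UnivT
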