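import Pool.Agent.helper36.UT.Spec

set_option autoImplicit false

open Filter Polynomial FirstOrder FirstOrder.Language

namespace Pool.Agent.UnivT

theorem TWA_sq : ∀ t : ℕ, 4 ≤ t → t * t ≤ 2 ^ t := by
  intro t ht
  induction t, ht using Nat.le_induction with
  | base => norm_num
  | succ n hn ih =>
    rw [pow_succ]
    nlinarith

theorem TWA : TWA_stmt := by
  have hmono : StrictMono tow := by
    apply strictMono_nat_of_lt_succ
    intro h
    exact Nat.lt_two_pow_self
  have hlt : ∀ h, h < tow h := by
    intro h
    induction h with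
    | zero => exact Nat.one_pos
    | succ n ih =>
      have h1 : tow n < tow (n + 1) := hmono (Nat.lt_succ_self n)
      omega
  refine ⟨hmono, hlt, fun K => ?_⟩
  rw [eventually_atTop]
  refine ⟨max K 4, fun h hh => ?_⟩
  have h1 : max K 4 < tow h := lt_of_le_of_lt hh (hlt h)
  have h2 : K ≤ tow h := le_trans (le_max_left _ _) h1.le
  have h3 : 4 ≤ tow h := le_trans (le_max_right _ _) h1.le
  have h4 := TWA_sq (tow h) h3
  have h5 : tow (h + 1) = 2 ^ tow h := rfl
  rw [h5]
  exact le_trans (Nat.mul_le_mul_right _ h2) h4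

end Pool.Agent.UnivT
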